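import Pool.Agent.X139.GWPath

set_option autoImplicit false

open MeasureTheory ProbabilityTheory Pool.Agent.X139.GW

namespace Pool.Agent.Results.MP_e34f63_pr.OneSidedCounterexample

/-- every type leads to every type (in at least one generation) with positive probability -/
def Irred {K : ℕ} (ζ : Family K) : Prop :=
  ∀ i j : Fin K, Relation.TransGen (fun a b => ∃ x : Word K, ζ a x ≠ 0 ∧ b ∈ x) i j

/-- the trees of the family are almost surely finite -/
def AlmostSurelyFinite {K : ℕ} (ζ : Family K) : Prop :=
  ∀ i : Fin K, ∀ᵐ T ∂(treeLaw ζ i), {u | T u ≠ none}.Finite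

/-- the uniform law on two words -/
noncomputable def half (a b : Word 2) : PMF (Word 2) :=
  PMF.uniformOfFinset {a, b} (Finset.insert_nonempty a {b})

/-- first family: type `0` always has one child of type `1`; type `1` has no child or one child of
type `0`, with probability `1/2` each -/
noncomputable def famA : Family 2 := ![PMF.pure [1], half [] [0]]

/-- second family: type `0` may also die -/
noncomputable def famB : Family 2 := ![half [] [1], half [] [0]]

lemma half_left (a b : Word 2) (hab : a ≠ b) : half a b a = 1 / 2 := by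
  unfold half
  rw [PMF.uniformOfFinset_apply_of_mem _ (by simp), Finset.card_pair hab]
  simp

lemma half_right (a b : Word 2) (hab : a ≠ b) : half a b b = 1 / 2 := by
  unfold half
  rw [PMF.uniformOfFinset_apply_of_mem _ (by simp), Finset.card_pair hab]
  simp

lemma half_ne (a b x : Word 2) (hx : half a b x ≠ 0) : x = a ∨ x = b := by
  by_contra h
  apply hx
  unfold half
  rw [PMF.uniformOfFinset_apply_of_notMem]
  simpa using h

lemma shortA : Short famA := by
  intro j x hx
  fin_cases j
  · right
    have h1 : (PMF.pure ([1] : Word 2)) x ≠ 0 := hx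
    rw [PMF.pure_apply] at h1
    by_contra h2
    exact h1 (if_neg h2)
  · have h1 : half [] [0] x ≠ 0 := hx
    exact half_ne _ _ _ h1

lemma shortB : Short famB := by
  intro j x hx
  fin_cases j
  · have h1 : half [] [1] x ≠ 0 := hx
    exact half_ne _ _ _ h1
  · have h1 : half [] [0] x ≠ 0 := hx
    exact half_ne _ _ _ h1

lemma posB : ∀ j, famB j [] ≠ 0 ∧ famB j [j + 1] ≠ 0 := by
  intro j
  fin_cases j
  · refine ⟨?_, ?_⟩
    · show half [] [1] [] ≠ 0
      rw [half_left _ _ (by simp)]; simp
    · show half [] [1] [1] ≠ 0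
      rw [half_right _ _ (by simp)]; simp
  · refine ⟨?_, ?_⟩
    · show half [] [0] [] ≠ 0
      rw [half_left _ _ (by simp)]; simp
    · show half [] [0] [0] ≠ 0
      rw [half_right _ _ (by simp)]; simp

lemma irred_of (ζ : Family 2) (h0 : ζ 0 [1] ≠ 0) (h1 : ζ 1 [0] ≠ 0) : Irred ζ := by
  have e01 : Relation.TransGen (fun a b => ∃ x : Word 2, ζ a x ≠ 0 ∧ b ∈ x) 0 1 :=
    Relation.TransGen.single ⟨[1], h0, by simp⟩
  have e10 : Relation.TransGen (fun a b => ∃ x : Word 2, ζ a x ≠ 0 ∧ b ∈ x) 1 0 :=
    Relation.TransGen.single ⟨[0], h1, by simp⟩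
  intro i j
  fin_cases i <;> fin_cases j
  · exact e01.trans e10
  · exact e01
  · exact e10
  · exact e10.trans e01

/-- **The conjecture fails.** With two types and the single row `Γ = (1, 1)` (total number of
vertices) there are two irreducible offspring families with almost surely finite trees which satisfy
condition (ii) and do not satisfy condition (i). -/
theorem result :
    ∃ ζ ζ' : Family 2, Irred ζ ∧ Irred ζ' ∧ AlmostSurelyFinite ζ ∧ AlmostSurelyFinite ζ' ∧
      CondII (fun _ => 1) ζ ζ' ∧ ¬ CondI ζ ζ' := by
  refine ⟨famA, famB, ?_, ?_, ?_, ?_, condII_short famA famB shortA shortB posB, ?_⟩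
  · refine irred_of _ ?_ ?_
    · show (PMF.pure ([1] : Word 2)) [1] ≠ 0
      simp
    · show half [] [0] [0] ≠ 0
      rw [half_right _ _ (by simp)]; simp
  · exact irred_of _ (posB 0).2 (posB 1).2
  · intro i
    exact finite_ae _ shortA (half_left _ _ (by simp)) i
  · intro i
    exact finite_ae _ shortB (half_left _ _ (by simp)) i
  · intro h
    have h1 := (h 0 []).1 (by
      show (PMF.pure ([1] : Word 2)) [] = 0
      simp)
    exact (posB 0).1 h1

end Pool.Agent.Results.MP_e34f63_pr.OneSidedCounterexample
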